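import Pool.Agent.U737.MN.Stm
import Pool.Agent.TH521.J3102

set_option autoImplicit false

open NumberField Filter Topology

namespace Pool.Agent.U630.MN

open Pool.Agent.TH444.ML (dsc QS DiscQuad KumP IsK Rep Sqf)
open Pool.Agent.TH521.J3102 (USq finite_USq USq_eq exists_rep finrank_ext same)
open Pool.Agent.U737.MN (nc badId spl NotFull SqBad Sieve BadSmall)

section

variable (K Ω : Type) [Field K] [NumberField K] [Field Ω] [Algebra K Ω] [IsAlgClosure K Ω]
  (M : IntermediateField K Ω) [FiniteDimensional K M]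

/-- the set to be counted -/
def SY (Y : ℝ) : Set (IntermediateField K Ω) :=
  {L : IntermediateField K Ω | M ≤ L ∧
      Module.finrank K L = 2 * Module.finrank K M ∧
      nc L ≠ 2 ^ Module.finrank K M * nc M ∧ dsc L ≤ Y * dsc M ^ 2}

/-- the hypothesis on the set of primes `T` -/
def GoodT [NumberField M] (T : Set (Ideal (𝓞 K))) : Prop :=
  ∀ (α : 𝓞 M) (𝔡 𝔠 : Ideal (𝓞 M))
    (S : Finset (M →ₐ[K] IntermediateField.normalClosure K M Ω)), α ≠ 0 →
    Squarefree 𝔡 → Ideal.span {α} = 𝔡 * 𝔠 ^ 2 → S.Nonempty →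
    IsSquare (∏ φ ∈ S, φ (α : M)) → 𝔡 ∈ badId K M T

lemma data (h2 : KumP) (h3 : NotFull) [NumberField M] (T : Set (Ideal (𝓞 K)))
    (h4 : GoodT K Ω M T)
    (k : Ideal (𝓞 M) → 𝓞 M → ℕ) (hk : IsK M k) (rep : ClassGroup (𝓞 M) → Ideal (𝓞 M))
    (hrep : Rep M rep) (Y : ℝ) (L : IntermediateField K Ω) (hL : L ∈ SY K Ω M Y) :
    ∃ (C : ClassGroup (𝓞 M)) (α : 𝓞 M) (s : Ω) (𝔡 : Ideal (𝓞 M)), α ≠ 0 ∧
      Ideal.span {α} = 𝔡 * rep C ^ 2 ∧ s ^ 2 = algebraMap M Ω (α : M) ∧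
      L = (IntermediateField.adjoin M {s}).restrictScalars K ∧ 𝔡 ∈ badId K M T ∧
      (Ideal.absNorm 𝔡 : ℝ) ≤ 4 ^ (Module.finrank ℚ M) * Y := by
  obtain ⟨hML, hfin, hnc, hdsc⟩ := hL
  have : IsAlgClosed Ω := IsAlgClosure.isAlgClosed K
  have hL' := finrank_ext K Ω M L hML hfin
  obtain ⟨C, α, s, ⟨hα0, 𝔡, hsq, hspan⟩, hs, hsM, hadj⟩ := (h2 M Ω rep hrep).1 _ hL'
  have hLeq : L = (IntermediateField.adjoin M {s}).restrictScalars K := by
    rw [← hadj, IntermediateField.extendScalars_restrictScalars]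
  have hsup : L = M ⊔ IntermediateField.adjoin K {s} := by
    rw [hLeq, IntermediateField.restrictScalars_adjoin, IntermediateField.adjoin_union,
      IntermediateField.adjoin_self]
  have hsM' : s ∉ M := fun h => hsM ⟨s, h⟩ rfl
  have hα0' : (α : M) ≠ 0 := fun h => hα0 (RingOfIntegers.coe_eq_zero_iff.mp h)
  obtain ⟨S, hS, hsqr⟩ := h3 K Ω M L hML (α : M) s hα0' hs hsM' hsup hnc
  have hbad := h4 α 𝔡 (rep C) S hα0 hsq hspan hS hsqr
  have hMpos : 0 < Module.finrank K M := Module.finrank_pos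
  have hKL : FiniteDimensional K L := Module.finite_of_finrank_pos (by rw [hfin]; omega)
  have hNL : NumberField L := NumberField.of_module_finite K L
  let _ : Algebra M L := (IntermediateField.inclusion hML).toAlgebra
  have htower : IsScalarTower K M L := IsScalarTower.of_algebraMap_eq fun x => rfl
  have hf2 : Module.finrank M L = 2 := by
    have h5 := Module.finrank_mul_finrank K M L
    rw [hfin] at h5
    exact Nat.eq_of_mul_eq_mul_left hMpos (by rw [h5]; ring)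
  have hsL : s ∈ L := by
    rw [hsup]
    exact (le_sup_right : IntermediateField.adjoin K {s} ≤ _)
      (IntermediateField.mem_adjoin_simple_self K s)
  have hd := hk.disc L (⟨s, hsL⟩ : L) α 𝔡 (rep C) hf2 (by
      apply Subtype.ext
      exact hs) (by
      intro x hx
      exact hsM x (congrArg Subtype.val hx)) hα0 hsq hspan
  have hrc : rep C ≠ ⊥ := by
    obtain ⟨h, _⟩ := hrep C
    exact nonZeroDivisors.ne_zero h
  have hkle := hk.le (rep C) α hrc
  have e1 : dsc L = ((discr L).natAbs : ℝ) := by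
    unfold dsc
    rw [dif_pos hNL, Nat.cast_natAbs]
  have e2 : dsc M = ((discr M).natAbs : ℝ) := by
    unfold dsc
    rw [dif_pos ‹NumberField M›, Nat.cast_natAbs]
  rw [e1, e2] at hdsc
  have hdM : (0 : ℝ) < ((discr M).natAbs : ℝ) := by
    have : 0 < (discr M).natAbs := Int.natAbs_pos.mpr (discr_ne_zero M)
    exact_mod_cast this
  have hd' : ((discr L).natAbs : ℝ) * (k (rep C) α : ℝ) ^ 2 =
      4 ^ Module.finrank ℚ M * ((discr M).natAbs : ℝ) ^ 2 * (Ideal.absNorm 𝔡 : ℝ) := by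
    exact_mod_cast hd
  have hk' : (k (rep C) α : ℝ) ^ 2 ≤ (4 ^ Module.finrank ℚ M : ℝ) ^ 2 := by
    have : (k (rep C) α : ℝ) ≤ (4 ^ Module.finrank ℚ M : ℝ) := by exact_mod_cast hkle
    exact pow_le_pow_left₀ (Nat.cast_nonneg _) this 2
  have h4D : (0 : ℝ) < 4 ^ Module.finrank ℚ M := by positivity
  refine ⟨C, α, s, 𝔡, hα0, hspan, hs, hLeq, hbad, ?_⟩
  have h6 : 4 ^ Module.finrank ℚ M * ((discr M).natAbs : ℝ) ^ 2 * (Ideal.absNorm 𝔡 : ℝ) ≤
      (Y * ((discr M).natAbs : ℝ) ^ 2) * (4 ^ Module.finrank ℚ M : ℝ) ^ 2 := by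
    rw [← hd']
    exact mul_le_mul hdsc hk' (by positivity) ((Nat.cast_nonneg _).trans hdsc)
  have h7 : 0 < (4 : ℝ) ^ Module.finrank ℚ M * ((discr M).natAbs : ℝ) ^ 2 := by positivity
  have h8 : 4 ^ Module.finrank ℚ M * ((discr M).natAbs : ℝ) ^ 2 * (Ideal.absNorm 𝔡 : ℝ) ≤
      4 ^ Module.finrank ℚ M * ((discr M).natAbs : ℝ) ^ 2 * (4 ^ Module.finrank ℚ M * Y) := by
    calc _ ≤ _ := h6
      _ = _ := by ring
  exact le_of_mul_le_mul_left h8 h7

/-- bad ideals of bounded norm -/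
def TZ [NumberField M] (T : Set (Ideal (𝓞 K))) (Z : ℝ) : Set (Ideal (𝓞 M)) :=
  {𝔡 : Ideal (𝓞 M) | 𝔡 ∈ badId K M T ∧ (Ideal.absNorm 𝔡 : ℝ) ≤ Z}

omit [IsAlgClosure K Ω] [FiniteDimensional K M] in
lemma TZ_fin [NumberField M] (T : Set (Ideal (𝓞 K))) (Z : ℝ) : (TZ K Ω M T Z).Finite := by
  refine (Ideal.finite_setOfPred_absNorm_le (S := 𝓞 M) ⌊Z⌋₊).subset ?_
  intro 𝔡 h
  exact Nat.le_floor h.2

lemma count (h2 : KumP) (h3 : NotFull) [NumberField M] (T : Set (Ideal (𝓞 K)))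
    (h4 : GoodT K Ω M T)
    (k : Ideal (𝓞 M) → 𝓞 M → ℕ) (hk : IsK M k) (rep : ClassGroup (𝓞 M) → Ideal (𝓞 M))
    (hrep : Rep M rep) (Y : ℝ) :
    (SY K Ω M Y).ncard ≤ (TZ K Ω M T (4 ^ (Module.finrank ℚ M) * Y)).ncard *
      (Set.univ : Set (ClassGroup (𝓞 M) × USq M)).ncard := by
  classical
  have hdat := data K Ω M h2 h3 T h4 k hk rep hrep Y
  choose! C α s 𝔡 h5 h6 h7 h8 h9 h10 using hdat
  obtain ⟨ρ, hρ⟩ : ∃ ρ : Ideal (𝓞 M) → ClassGroup (𝓞 M) → IntermediateField K Ω,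
      ∀ L ∈ SY K Ω M Y, ρ (𝔡 L) (C L) ∈ SY K Ω M Y ∧ 𝔡 (ρ (𝔡 L) (C L)) = 𝔡 L ∧
        C (ρ (𝔡 L) (C L)) = C L := by
    refine ⟨fun d c => if h : ∃ L, L ∈ SY K Ω M Y ∧ 𝔡 L = d ∧ C L = c then h.choose else ⊥,
      fun L hL => ?_⟩
    have h : ∃ L', L' ∈ SY K Ω M Y ∧ 𝔡 L' = 𝔡 L ∧ C L' = C L := ⟨L, hL, rfl, rfl⟩
    simp only [dif_pos h]
    exact h.choose_spec
  have hu : ∀ L ∈ SY K Ω M Y, ∃ u : (𝓞 M)ˣ, α L = α (ρ (𝔡 L) (C L)) * u := by
    intro L hL
    obtain ⟨h11, h12, h13⟩ := hρ L hL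
    have h14 := h6 _ h11
    rw [h12, h13, ← h6 L hL, Ideal.span_singleton_eq_span_singleton] at h14
    obtain ⟨u, hu⟩ := h14
    exact ⟨u, hu.symm⟩
  choose! u hu using hu
  have hfin : (TZ K Ω M T (4 ^ (Module.finrank ℚ M) * Y)).Finite := TZ_fin K Ω M T _
  have hfU : Finite (USq M) := finite_USq M
  rw [← Set.ncard_prod]
  refine Set.ncard_le_ncard_of_injOn (fun L => (𝔡 L, (C L, (QuotientGroup.mk (u L) : USq M))))
    ?_ ?_ (hfin.prod Set.finite_univ)
  · intro L hL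
    exact ⟨⟨h9 L hL, h10 L hL⟩, Set.mem_univ _⟩
  · intro L hL L' hL' he
    simp only [Prod.mk.injEq] at he
    obtain ⟨e1, e2, e3⟩ := he
    obtain ⟨w, hw⟩ := USq_eq M _ _ e3
    have h11 := hu L hL
    have h12 := hu L' hL'
    rw [← e1, ← e2, hw] at h12
    have h13 : α L' = (w : 𝓞 M) ^ 2 * α L := by
      rw [h12, h11]
      push_cast
      ring
    rw [h8 L hL, h8 L' hL', same K Ω M (α L) (α L') (s L) (s L') (h7 L hL) (h7 L' hL') w h13]

/-- the normal closure gives a good set of primes for which the sieve works -/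
lemma exists_T (h4 : SqBad) (h5 : Sieve) [NumberField M] : ∃ T : Set (Ideal (𝓞 K)),
    GoodT K Ω M T ∧ Tendsto (fun Z : ℝ => ((TZ K Ω M T Z).ncard : ℝ) / Z) atTop (𝓝 0) := by
  have hcl : IsAlgClosed Ω := IsAlgClosure.isAlgClosed K
  have hchar : CharZero Ω := charZero_of_injective_algebraMap (algebraMap K Ω).injective
  have hfd : FiniteDimensional K (IntermediateField.normalClosure K M Ω) := inferInstance
  have hNN : NumberField (IntermediateField.normalClosure K M Ω) :=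
    NumberField.of_module_finite K _
  have halg : Algebra.IsAlgebraic K Ω := IsAlgClosure.isAlgebraic
  have hnorm : Normal K Ω := inferInstance
  have hG : Normal K (IntermediateField.normalClosure K M Ω) := inferInstance
  have hGal : IsGalois K (IntermediateField.normalClosure K M Ω) := ⟨⟩
  have hMN : M ≤ IntermediateField.normalClosure K M Ω := M.le_normalClosure
  let _ : Algebra M (IntermediateField.normalClosure K M Ω) :=
    (IntermediateField.inclusion hMN).toAlgebra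
  have htower : IsScalarTower K M (IntermediateField.normalClosure K M Ω) :=
    IsScalarTower.of_algebraMap_eq fun x => rfl
  refine ⟨spl K (IntermediateField.normalClosure K M Ω), ?_, ?_⟩
  · intro α 𝔡 𝔠 S hα hsq hspan hS hsqr
    exact h4 K M (IntermediateField.normalClosure K M Ω) α 𝔡 𝔠 S hα hsq hspan hS hsqr
  · exact h5 K M (IntermediateField.normalClosure K M Ω)

end

theorem t_BadSmall : (Pool.Agent.TH444.ML.DiscQuad → Pool.Agent.TH444.ML.KumP →
    Pool.Agent.U737.MN.NotFull → Pool.Agent.U737.MN.SqBad → Pool.Agent.U737.MN.Sieve →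
    Pool.Agent.U737.MN.BadSmall) := by
  intro h1 h2 h3 h4 h5 K Ω _ _ _ _ _ M _
  have hNM : NumberField M := NumberField.of_module_finite K M
  obtain ⟨k, hk⟩ := h1 M
  obtain ⟨rep, hrep⟩ := exists_rep M
  obtain ⟨T, hT, h6⟩ := exists_T K Ω M h4 h5
  have hc := count K Ω M h2 h3 T hT k hk rep hrep
  obtain ⟨D, hD⟩ : ∃ D : ℝ, D = 4 ^ (Module.finrank ℚ M) := ⟨_, rfl⟩
  obtain ⟨c, hc0⟩ : ∃ c : ℕ, c = (Set.univ : Set (ClassGroup (𝓞 M) × USq M)).ncard := ⟨_, rfl⟩
  have hDpos : 0 < D := by rw [hD]; positivity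
  have h7 : Tendsto (fun Y : ℝ => D * Y) atTop atTop := tendsto_id.const_mul_atTop hDpos
  have h8 := (h6.comp h7).mul_const (D * c)
  rw [zero_mul] at h8
  refine squeeze_zero' ?_ ?_ h8
  · filter_upwards [eventually_gt_atTop 0] with Y hY
    positivity
  · filter_upwards [eventually_gt_atTop 0] with Y hY
    have h9 := hc Y
    rw [← hD, ← hc0] at h9
    have h10 : ((SY K Ω M Y).ncard : ℝ) ≤ ((TZ K Ω M T (D * Y)).ncard : ℝ) * c := by
      exact_mod_cast h9
    have h11 : ((SY K Ω M Y).ncard : ℝ) / Y ≤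
        ((TZ K Ω M T (D * Y)).ncard : ℝ) / (D * Y) * (D * c) := by
      rw [div_mul_eq_mul_div, div_le_div_iff₀ hY (by positivity)]
      calc ((SY K Ω M Y).ncard : ℝ) * (D * Y) ≤
          (((TZ K Ω M T (D * Y)).ncard : ℝ) * c) * (D * Y) :=
            mul_le_mul_of_nonneg_right h10 (by positivity)
        _ = _ := by ring
    exact h11

end Pool.Agent.U630.MN
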